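import Pool.Agent.Helper15.TS.St
import Pool.Agent.Helper22.FL.Pattern
import Pool.Agent.Helper22.FL.Ogden

/-!
# Project TS (MP_434a84_lc): module PMP, the pumping property
-/

set_option autoImplicit false

namespace Pool.Agent.Helper16.TS

open Pool.Agent.Helper22.FL Pool.Agent.Helper22.CS Pool.Agent.Helper15.TS

variable {n : ℕ}

/-- a word with given letter counts -/
def wd (v : Fin n → ℕ) : List (Fin n) := (List.ofFn fun i => List.replicate (v i) i).flatten

theorem parikh_wd (v : Fin n → ℕ) : parikh (wd v) = v := by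
  funext a
  unfold parikh wd
  rw [List.count_flatten, List.map_ofFn, List.sum_ofFn]
  simp [List.count_replicate]

theorem wd_ne_nil {v : Fin n → ℕ} (hv : v ≠ 0) : wd v ≠ [] := by
  intro h
  apply hv
  rw [← parikh_wd v, h]
  funext a
  simp [parikh]

theorem parikh_flatMap (h : Fin 3 → List (Fin n)) (w : List (Fin 3)) :
    parikh (w.flatMap h) = ∑ j, w.count j • parikh (h j) := by
  induction w with
  | nil =>
    funext a
    simp [parikh]
  | cons a w ih =>
    rw [List.flatMap_cons, parikh_append, ih]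
    have h1 : ∀ j, (a :: w).count j • parikh (h j) =
        w.count j • parikh (h j) + (if a = j then parikh (h j) else 0) := by
      intro j
      rw [List.count_cons]
      by_cases haj : a = j
      · simp [haj, add_smul]
      · simp [haj]
    simp only [h1]
    rw [Finset.sum_add_distrib, Finset.sum_ite_eq Finset.univ a, if_pos (Finset.mem_univ a), add_comm]

/-- the word `0^{k 0} 1^{k 1} 2^{k 2}` -/
def tw (k : Fin 3 → ℕ) : List (Fin 3) :=
  List.replicate (k 0) 0 ++ List.replicate (k 1) 1 ++ List.replicate (k 2) 2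

theorem tw_eq (k : Fin 3 → ℕ) : tw k = (List.ofFn fun i => List.replicate (k i) (id i)).flatten := by
  unfold tw
  simp [List.ofFn_succ]

theorem flatMap_replicate' (h : Fin 3 → List (Fin n)) (m : ℕ) (a : Fin 3) :
    (List.replicate m a).flatMap h = (List.replicate m (h a)).flatten := by
  induction m with
  | zero => rfl
  | succ m ih => rw [List.replicate_succ, List.replicate_succ, List.flatMap_cons, List.flatten_cons, ih]

theorem flatMap_tw (h : Fin 3 → List (Fin n)) (k : Fin 3 → ℕ) :
    (tw k).flatMap h = (List.replicate (k 0) (h 0)).flatten ++ (List.replicate (k 1) (h 1)).flatten ++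
      (List.replicate (k 2) (h 2)).flatten := by
  unfold tw
  rw [List.flatMap_append, List.flatMap_append, flatMap_replicate', flatMap_replicate', flatMap_replicate']

theorem count_tw (k : Fin 3 → ℕ) (j : Fin 3) : (tw k).count j = k j := by
  unfold tw
  fin_cases j <;> simp [List.count_replicate]

/-- a word whose square is sorted has only one kind of letter -/
theorem eq_of_sq {v : List (Fin 3)} (h : (v ++ v).Pairwise (· ≤ ·)) {a b : Fin 3} (ha : a ∈ v) (hb : b ∈ v) :
    a = b :=
  le_antisymm ((List.pairwise_append.1 h).2.2 a ha b hb) ((List.pairwise_append.1 h).2.2 b hb a ha)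

theorem count_pump (u v x y z : List (Fin 3)) (i : ℕ) (j : Fin 3) :
    (u ++ (List.replicate (i + 1) v).flatten ++ x ++ (List.replicate (i + 1) y).flatten ++ z).count j =
      (u ++ v ++ x ++ y ++ z).count j + i * (v.count j + y.count j) := by
  have h1 : ∀ (m : ℕ) (s : List (Fin 3)), ((List.replicate m s).flatten).count j = m * s.count j := by
    intro m s
    rw [List.count_flatten, List.map_replicate, List.sum_replicate, smul_eq_mul]
  simp only [List.count_append, h1]
  ring

/-- module PMP -/
theorem stpmp (hINV : StINV) : StPMP := by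
  intro n S hT c q hq
  set h : Fin 3 → List (Fin n) := fun j => wd (q j) with hh
  have hne : ∀ a, h a ≠ [] := fun a => wd_ne_nil (hq a)
  have hcf := hINV (Fin 3) (Fin n) _ h (wd c) hne (hT (wd c) (h 0) (h 1) (h 2) (hne 0) (hne 1) (hne 2))
  have hcf2 := isContextFree_inter hcf (patRuns (id : Fin (2 + 1) → Fin 3)) 0 (Fin.last 2)
  have hpar : ∀ w : List (Fin 3), parikh (wd c ++ w.flatMap h) = c + ∑ j, w.count j • q j := by
    intro w
    rw [parikh_append, parikh_wd, parikh_flatMap]
    simp only [hh, parikh_wd]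
  obtain ⟨p, hp⟩ := ogden hcf2 (1 : Fin 3)
  refine ⟨max p 1, le_max_right _ _, fun k hk hK => ?_⟩
  have hw : tw k ∈ ({w | w ∈ ({w | wd c ++ w.flatMap h ∈ comLang S ⊓ threeStar (wd c) (h 0) (h 1) (h 2)} :
      Language (Fin 3)) ∧ (patRuns (id : Fin (2 + 1) → Fin 3)).rel 0 w (Fin.last 2)} : Language (Fin 3)) := by
    refine ⟨⟨?_, ?_⟩, ?_⟩
    · show parikh (wd c ++ (tw k).flatMap h) ∈ S
      rw [hpar]
      simp only [count_tw]
      exact hk
    · refine ⟨k, ?_⟩
      rw [flatMap_tw]
      simp only [List.append_assoc]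
    · rw [patRuns_iff]
      exact ⟨k, tw_eq k⟩
  obtain ⟨u, v, x, y, z, h1, h2, h3, h4⟩ := hp (tw k) hw (by rw [count_tw]; exact (le_max_left _ _).trans hK)
  have hcnt : ∀ j, (u ++ v ++ x ++ y ++ z).count j = k j := fun j => by rw [← h1, count_tw]
  refine ⟨fun j => v.count j + y.count j, h2, ?_, ?_, ?_⟩
  · have : v.count 1 + y.count 1 ≤ p := by omega
    exact this.trans (le_max_left _ _)
  · have hs := (patRuns_iff.1 (h4 2).2)
    rw [mem_blocks_iff] at hs
    obtain ⟨ps, hps, hps2⟩ := hs
    rw [List.map_id] at hps2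
    rw [← hps2] at hps
    have e2 : ∀ s : List (Fin 3), (List.replicate 2 s).flatten = s ++ s := by
      intro s
      simp [List.replicate]
    rw [e2, e2] at hps
    rw [List.pairwise_append, List.pairwise_append, List.pairwise_append, List.pairwise_append] at hps
    have hv : (v ++ v).Pairwise (· ≤ ·) := hps.1.1.1.2.1
    have hy : (y ++ y).Pairwise (· ≤ ·) := hps.1.2.1
    by_contra hcon
    rw [not_or] at hcon
    obtain ⟨hc0, hc2⟩ := hcon
    have m0 : (0 : Fin 3) ∈ v ∨ (0 : Fin 3) ∈ y := by
      by_contra hc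
      rw [not_or] at hc
      exact hc0 (show v.count 0 + y.count 0 = 0 by rw [List.count_eq_zero.2 hc.1, List.count_eq_zero.2 hc.2])
    have m2 : (2 : Fin 3) ∈ v ∨ (2 : Fin 3) ∈ y := by
      by_contra hc
      rw [not_or] at hc
      exact hc2 (show v.count 2 + y.count 2 = 0 by rw [List.count_eq_zero.2 hc.1, List.count_eq_zero.2 hc.2])
    have m1 : (1 : Fin 3) ∈ v ∨ (1 : Fin 3) ∈ y := by
      by_contra hc
      rw [not_or] at hc
      rw [List.count_eq_zero.2 hc.1, List.count_eq_zero.2 hc.2] at h2
      omega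
    have d01 : (0 : Fin 3) ≠ 1 := by decide
    have d02 : (0 : Fin 3) ≠ 2 := by decide
    have d12 : (1 : Fin 3) ≠ 2 := by decide
    rcases m0 with a0 | a0 <;> rcases m1 with a1 | a1 <;> rcases m2 with a2 | a2
    · exact d01 (eq_of_sq hv a0 a1)
    · exact d01 (eq_of_sq hv a0 a1)
    · exact d02 (eq_of_sq hv a0 a2)
    · exact d12 (eq_of_sq hy a1 a2)
    · exact d12 (eq_of_sq hv a1 a2)
    · exact d02 (eq_of_sq hy a0 a2)
    · exact d01 (eq_of_sq hy a0 a1)
    · exact d01 (eq_of_sq hy a0 a1)
  · intro i
    have h5 := (h4 (i + 1)).1.1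
    have h6 : parikh (wd c ++ (u ++ (List.replicate (i + 1) v).flatten ++ x ++
      (List.replicate (i + 1) y).flatten ++ z).flatMap h) ∈ S := h5
    rw [hpar] at h6
    simp only [count_pump, hcnt] at h6
    exact h6

end Pool.Agent.Helper16.TS
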