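import Pool.Agent.Helper12.TS.StB
import Pool.Agent.Helper51.AJ.Basic
import Pool.Agent.Helper41.AJ.M_CON

/-!
# Project TS, module VOR: partition of a connected set with given roots
-/

set_option autoImplicit false

namespace Pool.Agent.Helper16.TS

open Pool.Agent.Helper12.TS
open Pool.Agent.Helper51.AJ (IsMinor Planar Apex ExMinor Con Tch con_union con_singleton)
open Pool.Agent.Helper12.NK (rst Kc add)

private def Gd {V : Type} (G : SimpleGraph V) (T Φ Ψ : Set V) : Prop :=
  ∃ P : V → Set V, (∀ t ∈ Φ ∩ T, Con G (P t) ∧ P t ∩ T = {t}) ∧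
    (∀ t ∈ Φ ∩ T, ∀ t' ∈ Φ ∩ T, t ≠ t' → Disjoint (P t) (P t')) ∧ (⋃ t ∈ Φ ∩ T, P t) = Ψ

private theorem good_start {V : Type} (G : SimpleGraph V) (T Φ : Set V) : Gd G T Φ (Φ ∩ T) := by
  refine ⟨fun t => {t}, fun t ht => ⟨con_singleton G t, ?_⟩,
    fun t _ t' _ hne => Set.disjoint_singleton.2 hne, ?_⟩
  · ext z
    simp only [Set.mem_inter_iff, Set.mem_singleton_iff, and_iff_left_iff_imp]
    rintro rfl
    exact ht.2
  · exact Set.biUnion_of_singleton _

private theorem good_step {V : Type} (G : SimpleGraph V) (T Φ Ψ : Set V) (h2 : Φ ∩ T ⊆ Ψ)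
    (h : Gd G T Φ Ψ) (x y : V) (hx : x ∈ Ψ) (hy : y ∈ Φ \ Ψ) (hG : G.Adj x y) :
    Gd G T Φ (insert y Ψ) := by
  classical
  obtain ⟨P, h4, h5, h6⟩ := h
  have hyT : y ∉ T := fun h => hy.2 (h2 ⟨hy.1, h⟩)
  have hyP : ∀ s ∈ Φ ∩ T, y ∉ P s := fun s hs h => hy.2 (by
    rw [← h6]
    exact Set.mem_iUnion₂.2 ⟨s, hs, h⟩)
  rw [← h6] at hx
  obtain ⟨t₀, ht₀, hxt⟩ := Set.mem_iUnion₂.1 hx
  refine ⟨Function.update P t₀ (insert y (P t₀)), ?_, ?_, ?_⟩
  · intro t ht
    by_cases h : t = t₀
    · subst h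
      rw [Function.update_self]
      refine ⟨?_, ?_⟩
      · have h7 := con_union (h4 t ht).1 (con_singleton G y) ⟨x, hxt, y, rfl, hG⟩
        rwa [Set.union_singleton] at h7
      · rw [Set.insert_inter_of_notMem hyT]
        exact (h4 t ht).2
    · rw [Function.update_of_ne h]
      exact h4 t ht
  · intro t ht t' ht' hne
    by_cases h : t = t₀
    · subst h
      rw [Function.update_self, Function.update_of_ne hne.symm, Set.disjoint_insert_left]
      exact ⟨hyP t' ht', h5 t ht t' ht' hne⟩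
    · by_cases h' : t' = t₀
      · subst h'
        rw [Function.update_self, Function.update_of_ne h, Set.disjoint_insert_right]
        exact ⟨hyP t ht, h5 t ht t' ht' hne⟩
      · rw [Function.update_of_ne h, Function.update_of_ne h']
        exact h5 t ht t' ht' hne
  · ext z
    rw [Set.mem_iUnion₂]
    constructor
    · rintro ⟨t, ht, hz⟩
      by_cases h : t = t₀
      · subst h
        rw [Function.update_self] at hz
        rcases hz with hz | hz
        · exact Or.inl hz
        · refine Or.inr ?_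
          rw [← h6]
          exact Set.mem_iUnion₂.2 ⟨t, ht, hz⟩
      · rw [Function.update_of_ne h] at hz
        refine Or.inr ?_
        rw [← h6]
        exact Set.mem_iUnion₂.2 ⟨t, ht, hz⟩
    · rintro (hz | hz)
      · refine ⟨t₀, ht₀, ?_⟩
        rw [Function.update_self]
        exact Or.inl hz
      · rw [← h6] at hz
        obtain ⟨t, ht, hz⟩ := Set.mem_iUnion₂.1 hz
        refine ⟨t, ht, ?_⟩
        by_cases h : t = t₀
        · subst h
          rw [Function.update_self]
          exact Or.inr hz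
        · rw [Function.update_of_ne h]
          exact hz

theorem hVOR : StVOR := by
  intro V _ G D U T Φ hD hΦ hne
  have key : ∀ n : ℕ, ∀ Ψ : Set V, Ψ ⊆ Φ → Φ ∩ T ⊆ Ψ → (Φ \ Ψ).ncard = n →
      Gd G T Φ Ψ → Gd G T Φ Φ := by
    intro n
    induction n with
    | zero =>
      intro Ψ h1 h2 h3 h4
      have h5 : Ψ = Φ := by
        rw [Set.ncard_eq_zero (Set.toFinite _)] at h3
        exact Set.Subset.antisymm h1 (Set.sdiff_eq_empty.1 h3)
      rwa [h5] at h4
    | succ n ih =>
      intro Ψ h1 h2 h3 h4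
      have hΨne : Ψ.Nonempty := hne.mono h2
      have hΨΦ : Ψ ≠ Φ := by
        rintro rfl
        simp at h3
      obtain ⟨x, hx, y, hy, hxy⟩ :=
        (Pool.Agent.Helper41.AJ.hCON V (rst G U ⊔ D) Φ hΦ).1 Ψ h1 hΨne hΨΦ
      have hyT : y ∉ T := fun h => hy.2 (h2 ⟨hy.1, h⟩)
      have hG : G.Adj x y := by
        rcases hxy with h | h
        · exact h.1
        · exact absurd (hD h).2.2 hyT
      refine ih (insert y Ψ) (Set.insert_subset hy.1 h1) (h2.trans (Set.subset_insert _ _)) ?_
        (good_step G T Φ Ψ h2 h4 x y hx hy hG)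
      have h7 : Φ \ insert y Ψ = (Φ \ Ψ) \ {y} := by
        ext z
        simp only [Set.mem_sdiff, Set.mem_insert_iff, Set.mem_singleton_iff]
        tauto
      rw [h7, Set.ncard_sdiff_singleton_of_mem hy, h3, Nat.add_sub_cancel]
  exact key _ (Φ ∩ T) Set.inter_subset_left subset_rfl rfl (good_start G T Φ)

end Pool.Agent.Helper16.TS
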